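import Mathlib

/-!
# Finite generation of étale motivic cohomology in the degrees near the top

`Arith d X`: `X` is proper over `ℤ`, regular and connected, of dimension `d`. `ProjOver m X` is the
projective space of dimension `m` over `X`. `EtMot` collects the groups `H^i(X_et, ℤ(n))` and
`H^i(X, ℚ(n))` with the properties which are used: the projective bundle formula for `ProjOver m X`, and
`H^i(X_et, ℤ(d)) = H^i(X, ℚ(d))` for `i < 0`.

The conjecture (Q1) is that `H^i(X_et, ℤ(d))` is finitely generated for `0 ≤ i ≤ 2 d`, `d = dim X`.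

* For a fixed `X` it is true for all `ProjOver m X`, `m ≥ 0`, if and only if for every `e` the group
  `H^(2 (d + m) - e) (ProjOver m X, ℤ(d + m))` is finitely generated for infinitely many `m`. And then
  all groups `H^i(X_et, ℤ(n))` with `n ≥ d`, `i ≤ 2 n` are finitely generated, also the ones with
  negative `i`, and they vanish for `i < 0`, as well as `H^i(X, ℚ(n))`.
* The conjecture for all `X` is equivalent to the conjecture for the degrees `2 d - f(d) ≤ i ≤ 2 d`
  only, where `f` is any unbounded function, however small; or, more generally, for a set of pairs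
  `(d, i)` which contains for every `e` infinitely many pairs with `2 d - i = e`. It implies finite
  generation for all `i ≤ 2 d`, and also the conjecture of Beilinson and Soulé for `X` and all weights
  `n ≥ d`: the vanishing of `H^i(X, ℚ(n))` for `i < 0`.

Idea: the number `e = 2 n - i` is the same for `H^i(X, ℤ(n))` and for its copies in the cohomology of
the projective spaces over `X` (in which the weight is the dimension for a suitable choice of `m`),
but the condition `0 ≤ i` becomes weaker and weaker when the dimension of the projective space grows.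
-/

set_option autoImplicit false

open CategoryTheory CategoryTheory.Limits AlgebraicGeometry

namespace Pool.Agent.Results.MP_c71c7a_nt.DegreesNearTheTop

attribute [local instance] MvPolynomial.gradedAlgebra

/-- `X` is a proper, regular and connected scheme over `ℤ` of Krull dimension `d`. -/
def Arith (d : ℕ) (X : Scheme.{0}) : Prop :=
  IsProper (specZIsTerminal.from X) ∧ (∀ x : X, IsRegularLocalRing (X.presheaf.stalk x)) ∧
    ConnectedSpace X ∧ topologicalKrullDim X = d

/-- The projective space of dimension `m` over `X`. -/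
noncomputable def ProjOver (m : ℕ) (X : Scheme.{0}) : Scheme.{0} :=
  pullback (specZIsTerminal.from X)
    (specZIsTerminal.from (Proj (MvPolynomial.homogeneousSubmodule (Fin (m + 1)) ℤ)))

/-- The groups `H^i(X_et, ℤ(n))` and `H^i(X, ℚ(n))`, with the known properties which are used. -/
structure EtMot where
  /-- the étale motivic cohomology `H^i(X_et, ℤ(n))` -/
  H : ℤ → ℤ → Scheme.{0} → Type
  /-- the group structure -/
  grpH : ∀ i n X, AddCommGroup (H i n X)
  /-- the rational motivic cohomology `H^i(X, ℚ(n))` -/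
  Q : ℤ → ℤ → Scheme.{0} → Type
  /-- the group structure -/
  grpQ : ∀ i n X, AddCommGroup (Q i n X)
  /-- it is a vector space over `ℚ` -/
  modQ : ∀ i n X, Module ℚ (Q i n X)
  /-- projective spaces over `X` are again proper, regular and connected -/
  proj : ∀ (d m : ℕ) (X : Scheme.{0}), Arith d X → Arith (d + m) (ProjOver m X)
  /-- projective bundle formula: `H^i(ℙ^m_X, ℤ(n)) = ⨁ H^(i - 2 k)(X, ℤ(n - k))`, the sum over
  `0 ≤ k ≤ m`, for the weights `n` not smaller than the dimension `d + m` -/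
  bundle : ∀ (d m : ℕ) (X : Scheme.{0}), Arith d X → ∀ i n : ℤ, (d + m : ℤ) ≤ n →
    Nonempty (H i n (ProjOver m X) ≃+ ∀ k : Fin (m + 1), H (i - 2 * (k : ℤ)) (n - (k : ℤ)) X)
  /-- projective bundle formula for rational coefficients -/
  bundleQ : ∀ (d m : ℕ) (X : Scheme.{0}), Arith d X → ∀ i n : ℤ, (d + m : ℤ) ≤ n →
    Nonempty (Q i n (ProjOver m X) ≃+ ∀ k : Fin (m + 1), Q (i - 2 * (k : ℤ)) (n - (k : ℤ)) X)
  /-- `H^i(X_et, ℤ(d)) = H^i(X, ℚ(d))` for `i < 0`, `d = dim X` -/
  negative : ∀ (d : ℕ) (X : Scheme.{0}), Arith d X → ∀ i : ℤ, i < 0 → Nonempty (H i d X ≃+ Q i d X)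

attribute [instance] EtMot.grpH EtMot.grpQ EtMot.modQ

/-- `H^i(X_et, ℤ(n))` is finitely generated. -/
def EtMot.FG (T : EtMot) (i n : ℤ) (X : Scheme.{0}) : Prop := AddGroup.FG (T.H i n X)

/-- The conjecture Q1: `H^i(X_et, ℤ(d))` is finitely generated for all `0 ≤ i ≤ 2 d`, for all proper
regular connected schemes `X` over `ℤ`, `d = dim X`. -/
def EtMot.Conjecture (T : EtMot) : Prop :=
  ∀ (d : ℕ) (X : Scheme.{0}), Arith d X → ∀ i : ℤ, 0 ≤ i → i ≤ 2 * d → T.FG i d X

/-- The conjecture for the pairs of the dimension `d` and the degree `2 d - e` with `W d e`. -/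
def EtMot.Part (T : EtMot) (W : ℕ → ℕ → Prop) : Prop :=
  ∀ (d : ℕ) (X : Scheme.{0}), Arith d X → ∀ e : ℕ, e ≤ 2 * d → W d e →
    T.FG (2 * (d : ℤ) - (e : ℤ)) d X

/-- The strong form for `X` of dimension `d`: for all weights `n ≥ d` the group `H^i(X_et, ℤ(n))` is
finitely generated for `i ≤ 2 n` and zero for `i < 0`, and `H^i(X, ℚ(n))` is zero for `i < 0`
(the conjecture of Beilinson and Soulé). -/
def EtMot.Strong (T : EtMot) (d : ℕ) (X : Scheme.{0}) : Prop :=
  ∀ n : ℤ, (d : ℤ) ≤ n → (∀ i : ℤ, i ≤ 2 * n → T.FG i n X) ∧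
    ∀ i : ℤ, i < 0 → Subsingleton (T.H i n X) ∧ Subsingleton (T.Q i n X)

/-- a vector space over `ℚ` which is a finitely generated group is zero -/
lemma rat_zero (V : Type) [AddCommGroup V] [Module ℚ V] (h : AddGroup.FG V) : Subsingleton V := by
  have h0 : Module.Finite ℤ V := Module.Finite.iff_addGroup_fg.mpr h
  have h1 : (⊤ : Submodule ℤ V) ≤ (Ideal.span {(2 : ℤ)}) • (⊤ : Submodule ℤ V) := by
    intro v _
    have h2 : v = (2 : ℤ) • ((1 / 2 : ℚ) • v) := by
      rw [← Int.cast_smul_eq_zsmul ℚ, smul_smul]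
      norm_num
    rw [h2]
    exact Submodule.smul_mem_smul (Ideal.mem_span_singleton_self _) trivial
  obtain ⟨r, hr, hr2⟩ := Submodule.exists_sub_one_mem_and_smul_eq_zero_of_fg_of_le_smul
    (Ideal.span {(2 : ℤ)}) ⊤ h0.fg_top h1
  have hr0 : (r : ℚ) ≠ 0 := by
    intro h
    have h3 : r = 0 := by exact_mod_cast h
    rw [h3, Ideal.mem_span_singleton] at hr
    omega
  refine ⟨fun a b => ?_⟩
  have key : ∀ v : V, v = 0 := by
    intro v
    have h3 := hr2 v trivial
    rw [← Int.cast_smul_eq_zsmul ℚ] at h3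
    exact (smul_eq_zero.mp h3).resolve_left hr0
  rw [key a, key b]

section

variable (T : EtMot)

lemma fg_cast {i i' n n' : ℤ} {X : Scheme.{0}} (hi : i = i') (hn : n = n') (h : T.FG i n X) :
    T.FG i' n' X := by
  subst hi hn
  exact h

lemma sub_cast {i i' n n' : ℤ} {X : Scheme.{0}} (hi : i = i') (hn : n = n')
    (h : Subsingleton (T.H i n X)) : Subsingleton (T.H i' n' X) := by
  subst hi hn
  exact h

lemma subQ_cast {i i' n n' : ℤ} {X : Scheme.{0}} (hi : i = i') (hn : n = n')
    (h : Subsingleton (T.Q i n X)) : Subsingleton (T.Q i' n' X) := by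
  subst hi hn
  exact h

/-- the factors of the cohomology of the projective space -/
lemma fg_factor {d m : ℕ} {X : Scheme.{0}} (hX : Arith d X) {i n : ℤ} (hn : (d + m : ℤ) ≤ n)
    (h : T.FG i n (ProjOver m X)) (k : ℕ) (hk : k ≤ m) : T.FG (i - 2 * k) (n - k) X := by
  obtain ⟨e⟩ := T.bundle d m X hX i n hn
  unfold EtMot.FG at h ⊢
  exact AddGroup.fg_of_surjective
    (f := (Pi.evalAddMonoidHom (fun k : Fin (m + 1) => T.H (i - 2 * (k : ℤ)) (n - (k : ℤ)) X)
      ⟨k, Nat.lt_succ_of_le hk⟩).comp e.toAddMonoidHom)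
    ((Function.surjective_eval _).comp e.surjective)

lemma fg_bundle {d m : ℕ} {X : Scheme.{0}} (hX : Arith d X) {i n : ℤ} (hn : (d + m : ℤ) ≤ n)
    (h : ∀ k : ℕ, k ≤ m → T.FG (i - 2 * k) (n - k) X) : T.FG i n (ProjOver m X) := by
  obtain ⟨e⟩ := T.bundle d m X hX i n hn
  have h1 : ∀ k : Fin (m + 1), Module.Finite ℤ (T.H (i - 2 * (k : ℤ)) (n - (k : ℤ)) X) := fun k =>
    Module.Finite.iff_addGroup_fg.mpr (h k (Nat.lt_succ_iff.mp k.2))
  have h2 : AddGroup.FG (∀ k : Fin (m + 1), T.H (i - 2 * (k : ℤ)) (n - (k : ℤ)) X) :=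
    Module.Finite.iff_addGroup_fg.mp inferInstance
  unfold EtMot.FG
  exact AddGroup.fg_of_surjective (f := e.symm.toAddMonoidHom) e.symm.surjective

/-- the vanishing in negative degrees -/
lemma vanish {d : ℕ} {X : Scheme.{0}} (hX : Arith d X)
    (h : ∀ n : ℤ, (d : ℤ) ≤ n → ∀ i : ℤ, i ≤ 2 * n → T.FG i n X) (n : ℤ) (hn : (d : ℤ) ≤ n) (i : ℤ)
    (hi : i < 0) : Subsingleton (T.H i n X) ∧ Subsingleton (T.Q i n X) := by
  obtain ⟨m, rfl⟩ : ∃ m : ℕ, n = d + m := ⟨(n - d).toNat, by omega⟩
  have hP := T.proj d m X hX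
  have h1 : T.FG i (d + m) (ProjOver m X) := by
    refine fg_bundle T hX le_rfl fun k hk => h _ (by omega) _ (by omega)
  have h1' : T.FG i ((d + m : ℕ) : ℤ) (ProjOver m X) := fg_cast T rfl (by push_cast; ring) h1
  obtain ⟨e⟩ := T.negative (d + m) (ProjOver m X) hP i hi
  have h2 : Subsingleton (T.Q i ((d + m : ℕ) : ℤ) (ProjOver m X)) :=
    rat_zero _ (AddGroup.fg_of_surjective (hG := h1') (f := e.toAddMonoidHom) e.surjective)
  have h3 : Subsingleton (T.H i ((d + m : ℕ) : ℤ) (ProjOver m X)) := e.toEquiv.subsingleton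
  have h2' : Subsingleton (T.Q i (d + m) (ProjOver m X)) := subQ_cast T rfl (by push_cast; ring) h2
  have h3' : Subsingleton (T.H i (d + m) (ProjOver m X)) := sub_cast T rfl (by push_cast; ring) h3
  obtain ⟨a⟩ := T.bundle d m X hX i (d + m) le_rfl
  obtain ⟨b⟩ := T.bundleQ d m X hX i (d + m) le_rfl
  have h4 : Subsingleton (∀ k : Fin (m + 1), T.H (i - 2 * (k : ℤ)) (d + m - (k : ℤ)) X) :=
    a.symm.toEquiv.subsingleton
  have h5 : Subsingleton (∀ k : Fin (m + 1), T.Q (i - 2 * (k : ℤ)) (d + m - (k : ℤ)) X) :=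
    b.symm.toEquiv.subsingleton
  constructor
  · refine sub_cast T (i := i - 2 * ((0 : Fin (m + 1)) : ℕ)) (n := d + m - ((0 : Fin (m + 1)) : ℕ))
      (by simp) (by simp) ?_
    exact (Function.surjective_eval (β := fun k : Fin (m + 1) =>
      T.H (i - 2 * (k : ℤ)) (d + m - (k : ℤ)) X) 0).subsingleton
  · refine subQ_cast T (i := i - 2 * ((0 : Fin (m + 1)) : ℕ)) (n := d + m - ((0 : Fin (m + 1)) : ℕ))
      (by simp) (by simp) ?_
    exact (Function.surjective_eval (β := fun k : Fin (m + 1) =>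
      T.Q (i - 2 * (k : ℤ)) (d + m - (k : ℤ)) X) 0).subsingleton

/-- from infinitely many projective spaces to the strong form -/
lemma strong_of {d : ℕ} {X : Scheme.{0}} (hX : Arith d X)
    (h : ∀ e N : ℕ, ∃ m : ℕ, N ≤ m ∧ T.FG (2 * (d + m) - e) (d + m) (ProjOver m X)) :
    T.Strong d X := by
  have h1 : ∀ n : ℤ, (d : ℤ) ≤ n → ∀ i : ℤ, i ≤ 2 * n → T.FG i n X := by
    intro n hn i hi
    obtain ⟨m, hm, h2⟩ := h (2 * n - i).toNat (n - d).toNat
    have h3 := fg_factor T hX le_rfl h2 (d + m - n).toNat (by omega)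
    refine fg_cast T ?_ ?_ h3 <;> omega
  exact fun n hn => ⟨h1 n hn, vanish T hX h1 n hn⟩

lemma of_strong {d : ℕ} {X : Scheme.{0}} (hX : Arith d X) (h : T.Strong d X) (m : ℕ) (i : ℤ)
    (hi : i ≤ 2 * (d + m)) : T.FG i (d + m) (ProjOver m X) :=
  fg_bundle T hX le_rfl fun k hk => (h _ (by omega)).1 _ (by omega)

end

/-- **Finite generation of étale motivic cohomology in the degrees near the top.**
(1) For every `X` the following are equivalent: Q1 for all projective spaces over `X`; for every `e`,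
finite generation of `H^(2 (d + m) - e)(ℙ^m_X, ℤ(d + m))` for infinitely many `m`; the strong form for
`X`.
(2) Let `W` be a set of pairs `(d, e)` which contains for every `e` pairs with arbitrarily large `d`,
for example `e ≤ f(d)` for an unbounded function `f`. Then Q1 is equivalent to the part of the
conjecture for the dimension `d` and the degree `2 d - e` with `(d, e) ∈ W` only, and to the strong form
for all `X`. -/
theorem result (T : EtMot) :
    (∀ (d : ℕ) (X : Scheme.{0}), Arith d X → List.TFAE [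
      ∀ (m : ℕ) (i : ℤ), 0 ≤ i → i ≤ 2 * (d + m) → T.FG i (d + m) (ProjOver m X),
      ∀ e N : ℕ, ∃ m : ℕ, N ≤ m ∧ T.FG (2 * (d + m) - e) (d + m) (ProjOver m X),
      T.Strong d X]) ∧
    (∀ W : ℕ → ℕ → Prop, (∀ e N : ℕ, ∃ d : ℕ, N ≤ d ∧ W d e) → List.TFAE [
      T.Conjecture, T.Part W, ∀ (d : ℕ) (X : Scheme.{0}), Arith d X → T.Strong d X]) ∧
    ∀ f : ℕ → ℕ, (∀ N : ℕ, ∃ d : ℕ, N ≤ f d) → ∀ e N : ℕ, ∃ d : ℕ, N ≤ d ∧ e ≤ f d := by
  refine ⟨fun d X hX => ?_, fun W hW => ?_, fun f hf e N => ?_⟩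
  · tfae_have 1 → 2 := by
      intro h e N
      exact ⟨N + e, by omega, h (N + e) _ (by push_cast; omega) (by omega)⟩
    tfae_have 2 → 3 := strong_of T hX
    tfae_have 3 → 1 := fun h m i _ hi => of_strong T hX h m i hi
    tfae_finish
  · tfae_have 1 → 2 := fun h d X hX e he _ => h d X hX _ (by omega) (by omega)
    tfae_have 2 → 3 := by
      intro h d X hX
      refine strong_of T hX fun e N => ?_
      obtain ⟨D, hD, hW2⟩ := hW e (N + d + e)
      obtain ⟨m, rfl⟩ : ∃ m : ℕ, D = d + m := ⟨D - d, by omega⟩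
      have h1 := h (d + m) (ProjOver m X) (T.proj d m X hX) e (by omega) hW2
      exact ⟨m, by omega, fg_cast T (by push_cast; ring) (by push_cast; ring) h1⟩
    tfae_have 3 → 1 := fun h d X hX i _ hi => (h d X hX d le_rfl).1 i hi
    tfae_finish
  · classical
    obtain ⟨d, hd⟩ := hf (e + ∑ j ∈ Finset.range N, f j + 1)
    refine ⟨d, ?_, by omega⟩
    by_contra hlt
    push Not at hlt
    have h1 : f d ≤ ∑ j ∈ Finset.range N, f j :=
      Finset.single_le_sum (f := f) (fun _ _ => Nat.zero_le _) (Finset.mem_range.mpr hlt)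
    omega

end Pool.Agent.Results.MP_c71c7a_nt.DegreesNearTheTop
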